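import Pool.Agent.Helper76.FT.GoalsC

/-! Two constants theorem on strips (packet FT-TL of MP_39e2b7_an). -/

set_option autoImplicit false

namespace Pool.Agent.Helper27.FT

open Complex Set Pool.Agent.Helper76.FT Complex.HadamardThreeLines

/-- one side of the strip, `σ = ± i ρ₁` -/
theorem side {ρ ρ₁ M η : ℝ} (h1 : 0 < ρ₁) (h2 : ρ₁ < ρ) (f : ℂ → ℂ)
    (hf : DifferentiableOn ℂ f (Str ρ)) (hM : ∀ z ∈ Str ρ, ‖f z‖ ≤ M)
    (hη : ∀ x : ℝ, ‖f (x : ℂ)‖ ≤ η) (σ : ℝ) (hσ : |σ| = ρ₁) (ζ : ℂ) (h3 : 0 ≤ ζ.re)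
    (h4 : ζ.re ≤ 1) : ‖f (σ * I * ζ)‖ ≤ η ^ (1 - ζ.re) * M ^ ζ.re := by
  have him : ∀ w : ℂ, ((σ : ℂ) * I * w).im = σ * w.re := by
    intro w
    simp
  have hre : ∀ w : ℂ, ((σ : ℂ) * I * w).re = -(σ * w.im) := by
    intro w
    simp
  have hstr : ∀ w : ℂ, 0 ≤ w.re → w.re ≤ 1 → (σ : ℂ) * I * w ∈ Str ρ := by
    intro w hw1 hw2
    change |((σ : ℂ) * I * w).im| < ρ
    rw [him, abs_mul, hσ, abs_of_nonneg hw1]
    nlinarith
  have hstr' : ∀ w ∈ verticalClosedStrip (0 : ℝ) 1, (σ : ℂ) * I * w ∈ Str ρ := by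
    intro w hw
    exact hstr w hw.1 hw.2
  have hopen : IsOpen (Str ρ) := by
    have : Str ρ = (fun z : ℂ => |z.im|) ⁻¹' Iio ρ := rfl
    rw [this]
    exact isOpen_Iio.preimage (continuous_abs.comp Complex.continuous_im)
  have hdiff : DifferentiableOn ℂ (fun w : ℂ => f (σ * I * w)) (verticalClosedStrip (0:ℝ) 1) := by
    intro w hw
    have h5 : DifferentiableAt ℂ f (σ * I * w) :=
      (hf _ (hstr' w hw)).differentiableAt (hopen.mem_nhds (hstr' w hw))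
    have h6 : DifferentiableAt ℂ (fun w : ℂ => (σ : ℂ) * I * w) w := by fun_prop
    exact (DifferentiableAt.comp w h5 h6).differentiableWithinAt
  have hcl : closure (verticalStrip (0:ℝ) 1) ⊆ verticalClosedStrip (0:ℝ) 1 := by
    refine closure_minimal ?_ ?_
    · intro w hw
      exact ⟨hw.1.le, hw.2.le⟩
    · exact isClosed_Icc.preimage Complex.continuous_re
  have hd : DiffContOnCl ℂ (fun w : ℂ => f (σ * I * w)) (verticalStrip (0:ℝ) 1) := by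
    refine ⟨hdiff.mono fun w hw => ⟨hw.1.le, hw.2.le⟩, ?_⟩
    exact hdiff.continuousOn.mono hcl
  have hB : BddAbove ((norm ∘ fun w : ℂ => f (σ * I * w)) '' verticalClosedStrip (0:ℝ) 1) := by
    refine ⟨M, ?_⟩
    rintro _ ⟨w, hw, rfl⟩
    exact hM _ (hstr' w hw)
  have ha : ∀ w ∈ re ⁻¹' ({0} : Set ℝ), ‖(fun w : ℂ => f (σ * I * w)) w‖ ≤ η := by
    intro w hw
    have hw' : w.re = 0 := hw
    have : (σ : ℂ) * I * w = ((-(σ * w.im) : ℝ) : ℂ) := by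
      apply Complex.ext
      · rw [hre, Complex.ofReal_re]
      · rw [him, Complex.ofReal_im, hw', mul_zero]
    change ‖f (σ * I * w)‖ ≤ η
    rw [this]
    exact hη _
  have hb : ∀ w ∈ re ⁻¹' ({1} : Set ℝ), ‖(fun w : ℂ => f (σ * I * w)) w‖ ≤ M := by
    intro w hw
    have hw' : w.re = 1 := hw
    exact hM _ (hstr w (by rw [hw']; norm_num) (by rw [hw']))
  exact norm_le_interp_of_mem_verticalClosedStrip₀₁' (fun w : ℂ => f (σ * I * w))
    (z := ζ) ⟨h3, h4⟩ hd hB ha hb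

theorem ft_tl : GTL := by
  intro ρ ρ' M ε hρ' hρ hM hε
  set ρ₁ : ℝ := (ρ + ρ') / 2 with hρ₁
  have h1 : 0 < ρ₁ := by rw [hρ₁]; linarith
  have h2 : ρ₁ < ρ := by rw [hρ₁]; linarith
  have h3 : ρ' < ρ₁ := by rw [hρ₁]; linarith
  set θ : ℝ := ρ' / ρ₁ with hθ
  have hθ0 : 0 < θ := div_pos hρ' h1
  have hθ1 : θ < 1 := (div_lt_one h1).2 h3
  have h1θ : 0 < 1 - θ := by linarith
  set b : ℝ := min 1 ((ε / M) ^ (1 / (1 - θ))) with hb
  have hεM : 0 < ε / M := div_pos hε hM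
  have hb0 : 0 < b := lt_min one_pos (Real.rpow_pos_of_pos hεM _)
  have hb1 : b ≤ 1 := min_le_left _ _
  have hb2 : b ^ (1 - θ) ≤ ε / M := by
    calc b ^ (1 - θ) ≤ ((ε / M) ^ (1 / (1 - θ))) ^ (1 - θ) :=
          Real.rpow_le_rpow hb0.le (min_le_right _ _) h1θ.le
      _ = ε / M := by
          rw [← Real.rpow_mul hεM.le, one_div, inv_mul_cancel₀ h1θ.ne', Real.rpow_one]
  refine ⟨M * b, mul_pos hM hb0, ?_⟩
  intro f hf hfM hfη z hz
  have hz' : |z.im| < ρ' := hz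
  -- the point in the vertical strip
  obtain ⟨σ, ζ, hσ, hζ, hζre⟩ : ∃ (σ : ℝ) (ζ : ℂ), |σ| = ρ₁ ∧ (σ : ℂ) * I * ζ = z ∧
      ζ.re = |z.im| / ρ₁ := by
    rcases le_total 0 z.im with h | h
    · refine ⟨ρ₁, ⟨z.im / ρ₁, -z.re / ρ₁⟩, abs_of_pos h1, ?_, ?_⟩
      · apply Complex.ext
        · simp
          field_simp
        · simp
          field_simp
      · change z.im / ρ₁ = |z.im| / ρ₁
        rw [abs_of_nonneg h]
    · refine ⟨-ρ₁, ⟨-z.im / ρ₁, z.re / ρ₁⟩, by rw [abs_neg, abs_of_pos h1], ?_, ?_⟩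
      · apply Complex.ext
        · simp
          field_simp
        · simp
          field_simp
      · change -z.im / ρ₁ = |z.im| / ρ₁
        rw [abs_of_nonpos h]
  have hs0 : 0 ≤ ζ.re := by
    rw [hζre]
    positivity
  have hsθ : ζ.re ≤ θ := by
    rw [hζre, hθ]
    exact div_le_div_of_nonneg_right hz'.le h1.le
  have key := side h1 h2 f hf hfM hfη σ hσ ζ hs0 (by linarith)
  rw [hζ] at key
  refine key.trans ?_
  have h5 : (M * b) ^ (1 - ζ.re) * M ^ ζ.re = M * b ^ (1 - ζ.re) := by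
    rw [Real.mul_rpow hM.le hb0.le]
    calc M ^ (1 - ζ.re) * b ^ (1 - ζ.re) * M ^ ζ.re
        = (M ^ (1 - ζ.re) * M ^ ζ.re) * b ^ (1 - ζ.re) := by ring
      _ = M * b ^ (1 - ζ.re) := by
          rw [← Real.rpow_add hM]
          simp
  rw [h5]
  have h6 : b ^ (1 - ζ.re) ≤ b ^ (1 - θ) :=
    Real.rpow_le_rpow_of_exponent_ge hb0 hb1 (by linarith)
  calc M * b ^ (1 - ζ.re) ≤ M * (ε / M) := mul_le_mul_of_nonneg_left (h6.trans hb2) hM.le
    _ = ε := by field_simp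

end Pool.Agent.Helper27.FT
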